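import Mathlib
import Pool.Agent.U980.HL.Finite

/-!
# Finitely many integral endomorphisms of given length
-/

set_option autoImplicit false
set_option linter.unusedSectionVars false

namespace Pool.Agent.U980.GS

open Module Pool.Agent.U980.MF Matrix

variable {n : ℕ} (A : RiemannData n)

/-- The matrix with the same integral entries. -/
def icst (K : Type) [Field K] {n : ℕ} (N : Matrix (Fin n) (Fin n) ℤ) : Matrix (Fin n) (Fin n) K :=
  fun i j => (N i j : K)

theorem icst_eq (K : Type) [Field K] [CharZero K] (N : Matrix (Fin n) (Fin n) ℤ) :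
    icst K N = cst K (icst ℚ N) := by
  ext i j
  change ((N i j : ℤ) : K) = (((N i j : ℤ) : ℚ) : K)
  rw [Rat.cast_intCast]

theorem icst_mul (K : Type) [Field K] (M N : Matrix (Fin n) (Fin n) ℤ) :
    icst K (M * N) = icst K M * icst K N := by
  ext i j
  change ((∑ l, M i l * N l j : ℤ) : K) = ∑ l, (M i l : K) * (N l j : K)
  rw [Int.cast_sum]
  exact Finset.sum_congr rfl fun l _ => Int.cast_mul _ _

theorem icst_inj {K : Type} [Field K] [CharZero K] {M N : Matrix (Fin n) (Fin n) ℤ}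
    (h : icst K M = icst K N) : M = N := by
  ext i j
  have h1 := congrFun (congrFun h i) j
  exact Int.cast_injective h1

/-- The length of an endomorphism. -/
noncomputable def len (b : Matrix (Fin n) (Fin n) ℝ) : ℝ :=
  ((cst ℝ A.E)⁻¹ * b.transpose * cst ℝ A.E * b).trace

theorem finite_integral (c : ℝ) : {b : Matrix (Fin n) (Fin n) ℤ |
    icst ℝ b * A.J = A.J * icst ℝ b ∧ len A (icst ℝ b) = c}.Finite := by
  obtain ⟨B, hB, hB'⟩ := Pool.Agent.U980.HL.exists_frame A.pos
  have h1 : B * B⁻¹ = 1 := Matrix.mul_nonsing_inv B hB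
  have h2 : B⁻¹ * B = 1 := Matrix.nonsing_inv_mul B hB
  have hE := E_unit (K := ℝ) A
  have hE1 : cst ℝ A.E * (cst ℝ A.E)⁻¹ = 1 := Matrix.mul_nonsing_inv _ hE
  have hE2 : (cst ℝ A.E)⁻¹ * cst ℝ A.E = 1 := Matrix.nonsing_inv_mul _ hE
  have hJ := J_skew A
  have hJ1 : A.J.transpose = -(cst ℝ A.E * A.J * (cst ℝ A.E)⁻¹) := by
    have h3 : A.J.transpose * cst ℝ A.E = -(cst ℝ A.E * A.J) := eq_neg_of_add_eq_zero_left hJ
    calc A.J.transpose = A.J.transpose * cst ℝ A.E * (cst ℝ A.E)⁻¹ := by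
          rw [Matrix.mul_assoc, hE1, Matrix.mul_one]
      _ = -(cst ℝ A.E * A.J * (cst ℝ A.E)⁻¹) := by rw [h3, Matrix.neg_mul]
  have hbound : ∀ b : Matrix (Fin n) (Fin n) ℝ, b * A.J = A.J * b → len A b = c →
      ∀ x y, |(B * b * B⁻¹) x y| ≤ Real.sqrt c := by
    intro b hb hc x y
    have hbT : A.J.transpose * b.transpose = b.transpose * A.J.transpose := by
      rw [← Matrix.transpose_mul, ← Matrix.transpose_mul, hb]
    rw [hJ1, Matrix.neg_mul, Matrix.mul_neg, neg_inj] at hbT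
    have hS : cst ℝ A.E * A.J * ((cst ℝ A.E)⁻¹ * b.transpose * cst ℝ A.E) =
        b.transpose * (cst ℝ A.E * A.J) := by
      calc cst ℝ A.E * A.J * ((cst ℝ A.E)⁻¹ * b.transpose * cst ℝ A.E) =
            (cst ℝ A.E * A.J * (cst ℝ A.E)⁻¹ * b.transpose) * cst ℝ A.E := by
              simp only [Matrix.mul_assoc]
        _ = b.transpose * (cst ℝ A.E * A.J) := by
              rw [hbT]
              simp only [Matrix.mul_assoc]
              rw [hE2, Matrix.mul_one]
    have h3 := hB' b _ hS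
    have h4 : ((B * b * B⁻¹).transpose * (B * b * B⁻¹)).trace = c := by
      rw [h3, ← hc]
      unfold len
      have e : B * ((cst ℝ A.E)⁻¹ * b.transpose * cst ℝ A.E) * B⁻¹ * (B * b * B⁻¹) =
          B * ((cst ℝ A.E)⁻¹ * b.transpose * cst ℝ A.E * b) * B⁻¹ := by
        calc B * ((cst ℝ A.E)⁻¹ * b.transpose * cst ℝ A.E) * B⁻¹ * (B * b * B⁻¹) =
              B * ((cst ℝ A.E)⁻¹ * b.transpose * cst ℝ A.E) * (B⁻¹ * B) * b * B⁻¹ := by
                simp only [Matrix.mul_assoc]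
          _ = _ := by
                rw [h2, Matrix.mul_one]
                simp only [Matrix.mul_assoc]
      rw [e, Matrix.trace_mul_comm, ← Matrix.mul_assoc, h2, Matrix.one_mul]
    have h7 : ((B * b * B⁻¹) x y) ^ 2 ≤ c := by
      refine le_trans ?_ h4.le
      rw [Matrix.trace]
      have h8 : ∀ i, ((B * b * B⁻¹).transpose * (B * b * B⁻¹)).diag i =
          ∑ k, ((B * b * B⁻¹) k i) ^ 2 := by
        intro i
        rw [Matrix.diag_apply, Matrix.mul_apply]
        exact Finset.sum_congr rfl fun k _ => by rw [Matrix.transpose_apply, sq]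
      rw [Finset.sum_congr rfl fun i _ => h8 i]
      refine le_trans ?_ (Finset.single_le_sum (f := fun i => ∑ k, ((B * b * B⁻¹) k i) ^ 2)
        (fun i _ => Finset.sum_nonneg fun k _ => sq_nonneg _) (Finset.mem_univ y))
      exact Finset.single_le_sum (f := fun k => ((B * b * B⁻¹) k y) ^ 2)
        (fun k _ => sq_nonneg _) (Finset.mem_univ x)
    exact Real.abs_le_sqrt h7
  have hbound2 : ∀ b : Matrix (Fin n) (Fin n) ℝ, b * A.J = A.J * b → len A b = c →
      ∀ x y, |b x y| ≤ ∑ k, ∑ l, |B⁻¹ x k| * Real.sqrt c * |B l y| := by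
    intro b hb hc x y
    have h3 : b = B⁻¹ * (B * b * B⁻¹) * B := by
      calc b = (B⁻¹ * B) * b * (B⁻¹ * B) := by rw [h2, Matrix.one_mul, Matrix.mul_one]
        _ = _ := by simp only [Matrix.mul_assoc]
    have h4 : b x y = ∑ l, (∑ k, B⁻¹ x k * (B * b * B⁻¹) k l) * B l y := by
      conv_lhs => rw [h3]
      rw [Matrix.mul_apply]
      exact Finset.sum_congr rfl fun l _ => by rw [Matrix.mul_apply]
    rw [h4, Finset.sum_comm]
    refine (Finset.abs_sum_le_sum_abs _ _).trans (Finset.sum_le_sum fun l _ => ?_)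
    rw [abs_mul, ← Finset.sum_mul]
    refine mul_le_mul_of_nonneg_right ?_ (abs_nonneg _)
    refine (Finset.abs_sum_le_sum_abs _ _).trans (Finset.sum_le_sum fun k _ => ?_)
    rw [abs_mul]
    exact mul_le_mul_of_nonneg_left (hbound b hb hc k l) (abs_nonneg _)
  have hfin : (Set.univ.pi fun x : Fin n => Set.univ.pi fun y : Fin n => Set.Icc
      (-⌈∑ k, ∑ l, |B⁻¹ x k| * Real.sqrt c * |B l y|⌉)
      ⌈∑ k, ∑ l, |B⁻¹ x k| * Real.sqrt c * |B l y|⌉).Finite :=
    Set.Finite.pi fun _ => Set.Finite.pi fun _ => Set.finite_Icc _ _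
  refine hfin.subset ?_
  rintro b ⟨hb, hc⟩ x - y -
  have h3 := hbound2 _ hb hc x y
  have h4 : |((b x y : ℤ) : ℝ)| ≤ ⌈∑ k, ∑ l, |B⁻¹ x k| * Real.sqrt c * |B l y|⌉ :=
    h3.trans (Int.le_ceil _)
  rw [← Int.cast_abs, Int.cast_le, abs_le] at h4
  exact h4

end Pool.Agent.U980.GS
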