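import Mathlib
import Pool.Agent.U980.MF.Main
import Pool.Agent.U980.GS.Int

/-!
# Families of abelian varieties through a point, and their Galois groups
-/

set_option autoImplicit false
set_option linter.unusedSectionVars false

namespace Pool.Agent.U980.GS

open Module Pool.Agent.Y114.RM Pool.Agent.Y114.TF Pool.Agent.R913.Adj Pool.Agent.U980.AD
open Pool.Agent.H204R3.GP Pool.Agent.U980.MF

variable {n : ℕ} {ℓ : ℕ} [Fact ℓ.Prime]

/-- `X` is in the Lie algebra of the algebraic monodromy group of `ρ`: it kills all tensors fixed by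
a subgroup of finite index. -/
def InGal {Γ : Type} [Group Γ] (ρ : Representation ℚ_[ℓ] Γ (Fin n → ℚ_[ℓ]))
    (X : End ℚ_[ℓ] (Fin n → ℚ_[ℓ])) : Prop :=
  ∀ (m : ℕ) (φ : Tensor ℚ_[ℓ] (Fin n → ℚ_[ℓ]) m), TateTensor ρ φ → KillsTensor X φ

/-- The known facts on the Tate module of the abelian variety `A`: the Weil pairing, the theorems of
Faltings, and that the endomorphisms are defined over a finite extension. -/
structure IsPoint (A : RiemannData n) {Γ : Type} [Group Γ] [TopologicalSpace Γ]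
    [IsTopologicalGroup Γ] [CompactSpace Γ] (ρ : Representation ℚ_[ℓ] Γ (Fin n → ℚ_[ℓ]))
    (χ : Γ →* ℚ_[ℓ]) : Prop where
  tateModule : IsTateModule A ρ χ
  faltings : Faltings A ρ
  endos : ∀ N : Matrix (Fin n) (Fin n) ℚ, cst ℝ N * A.J = A.J * cst ℝ N →
    ∃ Δ : Subgroup Γ, Δ.FiniteIndex ∧
      ∀ g ∈ Δ, ρ g * Matrix.toLin' (cst ℚ_[ℓ] N) = Matrix.toLin' (cst ℚ_[ℓ] N) * ρ g

/-- A family over a variety `Y` through the point, with the fibre `A` there: `G` is the arithmetic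
fundamental group of `Y` (over a finitely generated field of definition of the point), `N` the
geometric one, and `D` the image in it of the topological fundamental group. -/
structure IsFamilyThrough (A : RiemannData n) {Γ : Type} [Group Γ]
    (ρx : Representation ℚ_[ℓ] Γ (Fin n → ℚ_[ℓ])) (χx : Γ →* ℚ_[ℓ])
    {G : Type} [Group G] [TopologicalSpace G] [IsTopologicalGroup G] [CompactSpace G]
    (ρ : Representation ℚ_[ℓ] G (Fin n → ℚ_[ℓ])) (χ : G →* ℚ_[ℓ]) (N D : Subgroup G) :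
    Prop where
  tateModule : IsTateModule A ρ χ
  semisimple : FiniteIndexSemisimple ρ
  point : ∃ s : Γ →* G, (∀ γ, ρ (s γ) = ρx γ) ∧ (∀ γ, χ (s γ) = χx γ) ∧
    ∀ g, ∃ h ∈ N, ∃ γ, g = h * s γ
  normal : N.Normal
  geometric : ∀ h ∈ N, χ h = 1
  le : D ≤ N
  dense : N ≤ D.topologicalClosure
  integral : ∀ p ∈ D, ∃ M : Matrix (Fin n) (Fin n) ℤ, ρ p = Matrix.toLin' (icst ℚ_[ℓ] M)
  deligne : ∀ X, InGal ρ X → ∃ Y, InGal ρx Y ∧ X - Y ∈ Submodule.span ℚ_[ℓ]
    {Z | ∃ B C, InGal ρ B ∧ InGal ρ C ∧ Z = B * C - C * B}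

end Pool.Agent.U980.GS
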