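import Mathlib
import Pool.Agent.U980.GS.Defs

/-!
# The endomorphisms of the fibre are endomorphisms of the family
-/

set_option autoImplicit false
set_option linter.unusedSectionVars false

namespace Pool.Agent.U980.GS

open Module Pool.Agent.Y114.RM Pool.Agent.Y114.TF Pool.Agent.R913.Adj Pool.Agent.U980.AD
open Pool.Agent.H204R3.GP Pool.Agent.U980.MF

theorem finiteIndex_of_cover {G : Type} [Group G] (Z : Subgroup G) {T : Set G} (hT : T.Finite)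
    (h : ∀ g, ∃ t ∈ T, t⁻¹ * g ∈ Z) : Z.FiniteIndex := by
  have hs : Function.Surjective (fun t : T => (QuotientGroup.mk (t : G) : G ⧸ Z)) := by
    intro q
    induction q using QuotientGroup.induction_on with
    | H g =>
      obtain ⟨t, ht, htg⟩ := h g
      exact ⟨⟨t, ht⟩, QuotientGroup.eq.2 htg⟩
  have : Finite T := hT
  have : Finite (G ⧸ Z) := Finite.of_surjective _ hs
  exact Subgroup.finiteIndex_of_finite_quotient

theorem exists_cover {G : Type} [Group G] (Z : Subgroup G) (hZ : Z.FiniteIndex) :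
    ∃ T : Set G, T.Finite ∧ ∀ g, ∃ t ∈ T, t⁻¹ * g ∈ Z := by
  have := hZ
  refine ⟨Set.range (fun q : G ⧸ Z => q.out), Set.finite_range _, fun g => ?_⟩
  refine ⟨(QuotientGroup.mk g : G ⧸ Z).out, ⟨_, rfl⟩, ?_⟩
  rw [← QuotientGroup.eq]
  exact Quotient.out_eq _

variable {n : ℕ} {A : RiemannData n} {ℓ : ℕ} [Fact ℓ.Prime]

/-- The Tate combinations of the endomorphisms of `A`. -/
noncomputable def eSpan (A : RiemannData n) (ℓ : ℕ) [Fact ℓ.Prime] :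
    Submodule ℚ_[ℓ] (End ℚ_[ℓ] (Fin n → ℚ_[ℓ])) :=
  Submodule.span ℚ_[ℓ] {Y | ∃ N : Matrix (Fin n) (Fin n) ℚ,
      cst ℝ N * A.J = A.J * cst ℝ N ∧ Y = Matrix.toLin' (cst ℚ_[ℓ] N)}

/-- A rational matrix which is a combination of endomorphisms is an endomorphism. -/
theorem rat_descent {N : Matrix (Fin n) (Fin n) ℚ}
    (h : Matrix.toLin' (cst ℚ_[ℓ] N) ∈ eSpan A ℓ) : cst ℝ N * A.J = A.J * cst ℝ N := by
  have key : ∀ Z ∈ eSpan A ℓ, ∀ f : ℚ_[ℓ] →ₗ[ℚ] ℚ,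
      cst ℝ (fnl f (LinearMap.toMatrix' Z)) * A.J =
        A.J * cst ℝ (fnl f (LinearMap.toMatrix' Z)) := by
    intro Z hZ
    unfold eSpan at hZ
    refine Submodule.span_induction (p := fun Z _ => ∀ f : ℚ_[ℓ] →ₗ[ℚ] ℚ,
      cst ℝ (fnl f (LinearMap.toMatrix' Z)) * A.J =
        A.J * cst ℝ (fnl f (LinearMap.toMatrix' Z))) ?_ ?_ ?_ ?_ hZ
    · rintro _ ⟨N', hN', rfl⟩ f
      have e : cst ℝ (fnl f (LinearMap.toMatrix' (Matrix.toLin' (cst ℚ_[ℓ] N')))) =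
          (f 1 : ℝ) • cst ℝ N' := by
        rw [LinearMap.toMatrix'_toLin']
        ext a b
        change ((f (N' a b : ℚ_[ℓ]) : ℚ) : ℝ) = (f 1 : ℝ) * (N' a b : ℝ)
        have h1 := dual_mul f (N' a b) 1
        rw [mul_one] at h1
        rw [h1, Rat.cast_mul, mul_comm]
      rw [e, Matrix.smul_mul, Matrix.mul_smul, hN']
    · intro f
      have e : cst ℝ (fnl f (LinearMap.toMatrix' (0 : End ℚ_[ℓ] (Fin n → ℚ_[ℓ])))) = 0 := by
        rw [map_zero]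
        ext a b
        change ((f 0 : ℚ) : ℝ) = 0
        rw [map_zero, Rat.cast_zero]
      rw [e, Matrix.zero_mul, Matrix.mul_zero]
    · intro x y _ _ hx hy f
      have e : cst ℝ (fnl f (LinearMap.toMatrix' (x + y))) =
          cst ℝ (fnl f (LinearMap.toMatrix' x)) + cst ℝ (fnl f (LinearMap.toMatrix' y)) := by
        rw [map_add]
        ext a b
        change ((f (LinearMap.toMatrix' x a b + LinearMap.toMatrix' y a b) : ℚ) : ℝ) =
          ((f (LinearMap.toMatrix' x a b) : ℚ) : ℝ) + ((f (LinearMap.toMatrix' y a b) : ℚ) : ℝ)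
        rw [map_add, Rat.cast_add]
      rw [e, Matrix.add_mul, Matrix.mul_add, hx f, hy f]
    · intro c x _ hx f
      let g : ℚ_[ℓ] →ₗ[ℚ] ℚ := f ∘ₗ (LinearMap.mulLeft ℚ c)
      have e : fnl f (LinearMap.toMatrix' (c • x)) = fnl g (LinearMap.toMatrix' x) := by
        rw [map_smul]
        rfl
      rw [e]
      exact hx g
  obtain ⟨f, hf⟩ : ∃ f : ℚ_[ℓ] →ₗ[ℚ] ℚ, f 1 ≠ 0 := by
    by_contra hcon
    push Not at hcon
    exact one_ne_zero ((Module.forall_dual_apply_eq_zero_iff ℚ (1 : ℚ_[ℓ])).1 hcon)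
  have h1 := key _ h f
  have e : cst ℝ (fnl f (LinearMap.toMatrix' (Matrix.toLin' (cst ℚ_[ℓ] N)))) =
      (f 1 : ℝ) • cst ℝ N := by
    rw [LinearMap.toMatrix'_toLin']
    ext a b
    change ((f (N a b : ℚ_[ℓ]) : ℚ) : ℝ) = (f 1 : ℝ) * (N a b : ℝ)
    have h1 := dual_mul f (N a b) 1
    rw [mul_one] at h1
    rw [h1, Rat.cast_mul, mul_comm]
  rw [e, Matrix.smul_mul, Matrix.mul_smul] at h1
  exact smul_right_injective _ (Rat.cast_ne_zero.2 hf) h1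

section point

variable {Γ : Type} [Group Γ] [TopologicalSpace Γ] [IsTopologicalGroup Γ] [CompactSpace Γ]
  {ρx : Representation ℚ_[ℓ] Γ (Fin n → ℚ_[ℓ])} {χx : Γ →* ℚ_[ℓ]}

/-- The Lie algebra at the point, and the projection. -/
theorem point_data (hx : IsPoint A ρx χx) :
    ∃ (L : Submodule ℚ_[ℓ] (End ℚ_[ℓ] (Fin n → ℚ_[ℓ])))
      (P : End ℚ_[ℓ] (Fin n → ℚ_[ℓ]) →ₗ[ℚ_[ℓ]] End ℚ_[ℓ] (Fin n → ℚ_[ℓ])),
      (∀ X, X ∈ L ↔ InGal ρx X) ∧ IsLie L ∧ NonDeg L ∧ IsProj L P ∧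
      (∀ γ, ∀ X ∈ L, AdE (ρx γ) (ρx γ⁻¹) X ∈ L) ∧
      (∀ Z, (∀ X ∈ L, Z * X = X * Z) → Z ∈ eSpan A ℓ) ∧
      ∀ Z ∈ eSpan A ℓ, ∀ X ∈ L, Z * X = X * Z := by
  obtain ⟨L, hL, hLie, hAd, -⟩ := Y41.RM.lieL' ℚ_[ℓ] (Fin n → ℚ_[ℓ]) Γ ρx
  have hnd : NonDeg L := nonDeg_of_semisimple hx.faltings.semisimple hL hLie hAd
  obtain ⟨P, hP⟩ := exists_proj hnd
  have hgal : ∀ X, X ∈ L ↔ InGal ρx X := fun X =>
    ⟨fun h => ((hL X).1 h).2, fun h => (hL X).2 (mem_LT_of_semisimple ρx hx.faltings.semisimple h)⟩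
  refine ⟨L, P, hgal, hLie, hnd, hP, hAd, fun Z hZ => ?_, fun Z hZ X hX => ?_⟩
  · obtain ⟨Δ, hΔ, hcΔ⟩ := Y220.RM.tfr_abs ρx (conj_cont hx.tateModule.cont) (comm L)
      (comm_conj hAd) (comm_order hL)
    exact hx.faltings.endo Z ⟨Δ, hΔ, fun γ hγ => hcΔ γ hγ Z fun W hW => (hZ W hW).symm⟩
  · unfold eSpan at hZ
    refine Submodule.span_induction (p := fun Z _ => Z * X = X * Z) ?_ ?_ ?_ ?_ hZ
    · rintro _ ⟨N, hN, rfl⟩
      obtain ⟨Δ, hΔ, h⟩ := hx.endos N hN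
      exact (tate_comm ρx ((hgal X).1 hX) hΔ fun s hs => (h s hs).symm).symm
    · rw [zero_mul, mul_zero]
    · intro a b _ _ ha hb
      rw [add_mul, mul_add, ha, hb]
    · intro c a _ ha
      rw [smul_mul_assoc, mul_smul_comm, ha]

end point

end Pool.Agent.U980.GS
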