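import Mathlib
import Pool.Agent.U980.GS.Comm

/-!
# The endomorphisms of the fibre are endomorphisms of the family
-/

set_option autoImplicit false
set_option linter.unusedSectionVars false

namespace Pool.Agent.U980.GS

open Module Pool.Agent.Y114.RM Pool.Agent.Y114.TF Pool.Agent.R913.Adj Pool.Agent.U980.AD
open Pool.Agent.H204R3.GP Pool.Agent.U980.MF

variable {n : ℕ} {A : RiemannData n} {ℓ : ℕ} [Fact ℓ.Prime]
  {G : Type} [Group G] [TopologicalSpace G] [IsTopologicalGroup G] [CompactSpace G]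
  {ρ : Representation ℚ_[ℓ] G (Fin n → ℚ_[ℓ])} {χ : G →* ℚ_[ℓ]}

/-- The group elements which commute with a matrix. -/
def cen (ρ : Representation ℚ_[ℓ] G (Fin n → ℚ_[ℓ])) (Z : End ℚ_[ℓ] (Fin n → ℚ_[ℓ])) :
    Subgroup G where
  carrier := {g | ρ g * Z = Z * ρ g}
  mul_mem' := fun {a b} ha hb => by
    change ρ (a * b) * Z = Z * ρ (a * b)
    have ha' : ρ a * Z = Z * ρ a := ha
    have hb' : ρ b * Z = Z * ρ b := hb
    rw [map_mul, mul_assoc, hb', ← mul_assoc, ha', mul_assoc]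
  one_mem' := by
    change ρ 1 * Z = Z * ρ 1
    rw [map_one, one_mul, mul_one]
  inv_mem' := fun {a} ha => by
    change ρ a⁻¹ * Z = Z * ρ a⁻¹
    have ha' : ρ a * Z = Z * ρ a := ha
    have h1 : ρ a⁻¹ * ρ a = 1 := by rw [← map_mul, inv_mul_cancel, map_one]
    have h2 : ρ a * ρ a⁻¹ = 1 := by rw [← map_mul, mul_inv_cancel, map_one]
    calc ρ a⁻¹ * Z = ρ a⁻¹ * Z * (ρ a * ρ a⁻¹) := by rw [h2, mul_one]
      _ = ρ a⁻¹ * (Z * ρ a) * ρ a⁻¹ := by simp only [mul_assoc]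
      _ = ρ a⁻¹ * (ρ a * Z) * ρ a⁻¹ := by rw [ha']
      _ = (ρ a⁻¹ * ρ a) * Z * ρ a⁻¹ := by simp only [mul_assoc]
      _ = Z * ρ a⁻¹ := by rw [h1, one_mul]

theorem mem_cen {Z : End ℚ_[ℓ] (Fin n → ℚ_[ℓ])} {g : G} :
    g ∈ cen ρ Z ↔ ρ g * Z = Z * ρ g := Iff.rfl

theorem cen_closed (hρ : Continuous fun g => LinearMap.toMatrix' (ρ g))
    (Z : End ℚ_[ℓ] (Fin n → ℚ_[ℓ])) : IsClosed (cen ρ Z : Set G) := by
  have h1 : (cen ρ Z : Set G) = {g | LinearMap.toMatrix' (ρ g) * LinearMap.toMatrix' Z =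
      LinearMap.toMatrix' Z * LinearMap.toMatrix' (ρ g)} := by
    ext g
    change ρ g * Z = Z * ρ g ↔ LinearMap.toMatrix' (ρ g) * LinearMap.toMatrix' Z =
      LinearMap.toMatrix' Z * LinearMap.toMatrix' (ρ g)
    rw [← LinearMap.toMatrix'_mul, ← LinearMap.toMatrix'_mul]
    exact LinearMap.toMatrix'.injective.eq_iff.symm
  rw [h1]
  exact isClosed_eq (hρ.matrix_mul continuous_const) (continuous_const.matrix_mul hρ)

theorem int_inv {p : G} {M M' : Matrix (Fin n) (Fin n) ℤ}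
    (hM : ρ p = Matrix.toLin' (icst ℚ_[ℓ] M)) (hM' : ρ p⁻¹ = Matrix.toLin' (icst ℚ_[ℓ] M')) :
    M * M' = 1 ∧ M' * M = 1 := by
  have h1 : ρ p * ρ p⁻¹ = 1 := by rw [← map_mul, mul_inv_cancel, map_one]
  have h2 : ρ p⁻¹ * ρ p = 1 := by rw [← map_mul, inv_mul_cancel, map_one]
  have h3 : icst ℚ_[ℓ] (1 : Matrix (Fin n) (Fin n) ℤ) = 1 := by
    ext i j
    change (((1 : Matrix (Fin n) (Fin n) ℤ) i j : ℤ) : ℚ_[ℓ]) = (1 : Matrix _ _ _) i j
    rw [Matrix.one_apply, Matrix.one_apply]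
    split_ifs
    · exact Int.cast_one
    · exact Int.cast_zero
  constructor
  · refine icst_inj (K := ℚ_[ℓ]) ?_
    rw [icst_mul, h3]
    have h4 := congrArg LinearMap.toMatrix' h1
    rw [LinearMap.toMatrix'_mul, hM, hM', LinearMap.toMatrix'_toLin', LinearMap.toMatrix'_toLin',
      LinearMap.toMatrix'_one] at h4
    exact h4
  · refine icst_inj (K := ℚ_[ℓ]) ?_
    rw [icst_mul, h3]
    have h4 := congrArg LinearMap.toMatrix' h2
    rw [LinearMap.toMatrix'_mul, hM, hM', LinearMap.toMatrix'_toLin', LinearMap.toMatrix'_toLin',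
      LinearMap.toMatrix'_one] at h4
    exact h4

theorem icst_one (K : Type) [Field K] : icst K (1 : Matrix (Fin n) (Fin n) ℤ) = 1 := by
  ext i j
  change (((1 : Matrix (Fin n) (Fin n) ℤ) i j : ℤ) : K) = (1 : Matrix _ _ _) i j
  rw [Matrix.one_apply, Matrix.one_apply]
  split_ifs
  · exact Int.cast_one
  · exact Int.cast_zero

/-- The integral matrices of the monodromy are symplectic. -/
theorem sympl (hw : ∀ g x y, riem A ℚ_[ℓ] (ρ g x) (ρ g y) = χ g * riem A ℚ_[ℓ] x y) {p : G}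
    (hp : χ p = 1) {M : Matrix (Fin n) (Fin n) ℤ} (hM : ρ p = Matrix.toLin' (icst ℚ_[ℓ] M)) :
    (icst ℝ M).transpose * cst ℝ A.E * icst ℝ M = cst ℝ A.E := by
  have h1 : (icst ℚ_[ℓ] M).transpose * cst ℚ_[ℓ] A.E * icst ℚ_[ℓ] M = cst ℚ_[ℓ] A.E := by
    ext i j
    have h2 := hw p (Pi.single i 1) (Pi.single j 1)
    rw [hp, one_mul, riem_apply, riem_apply, hM, Matrix.toLin'_apply, Matrix.toLin'_apply] at h2
    have h3 : ∀ C : Matrix (Fin n) (Fin n) ℚ_[ℓ],
        (Pi.single i (1 : ℚ_[ℓ])) ⬝ᵥ (C.mulVec (Pi.single j 1)) = C i j := by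
      intro C
      rw [Matrix.mulVec_single_one, single_one_dotProduct, Matrix.col_apply]
    have h4 : ((icst ℚ_[ℓ] M).mulVec (Pi.single i 1)) ⬝ᵥ
        ((cst ℚ_[ℓ] A.E).mulVec ((icst ℚ_[ℓ] M).mulVec (Pi.single j 1))) =
        (Pi.single i (1 : ℚ_[ℓ])) ⬝ᵥ (((icst ℚ_[ℓ] M).transpose * cst ℚ_[ℓ] A.E *
          icst ℚ_[ℓ] M).mulVec (Pi.single j 1)) := by
      rw [← Matrix.mulVec_mulVec, ← Matrix.mulVec_mulVec, Matrix.dotProduct_mulVec
        (Pi.single i (1 : ℚ_[ℓ])), Matrix.vecMul_transpose]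
    rw [h4, h3, h3] at h2
    exact h2
  have h2 : (icst ℚ M).transpose * A.E * icst ℚ M = A.E := by
    refine cst_inj (K := ℚ_[ℓ]) ?_
    rw [cst_mul, cst_mul, cst_transpose, ← icst_eq]
    exact h1
  have h3 := congrArg (cst ℝ) h2
  rw [cst_mul, cst_mul, cst_transpose, ← icst_eq] at h3
  exact h3

theorem len_conj {M M' : Matrix (Fin n) (Fin n) ℤ} (h1 : M * M' = 1) (h2 : M' * M = 1)
    (hM : (icst ℝ M).transpose * cst ℝ A.E * icst ℝ M = cst ℝ A.E)
    (b : Matrix (Fin n) (Fin n) ℤ) : len A (icst ℝ (M * b * M')) = len A (icst ℝ b) := by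
  obtain ⟨m, hm⟩ : ∃ m, m = icst ℝ M := ⟨_, rfl⟩
  obtain ⟨m', hm'⟩ : ∃ m, m = icst ℝ M' := ⟨_, rfl⟩
  obtain ⟨c, hc⟩ : ∃ c, c = icst ℝ b := ⟨_, rfl⟩
  obtain ⟨e, he⟩ : ∃ e, e = cst ℝ A.E := ⟨_, rfl⟩
  have h3 : m * m' = 1 := by rw [hm, hm', ← icst_mul, h1, icst_one]
  have h4 : m' * m = 1 := by rw [hm, hm', ← icst_mul, h2, icst_one]
  have hE := E_unit (K := ℝ) A
  have hE1 : e * e⁻¹ = 1 := by rw [he]; exact Matrix.mul_nonsing_inv _ hE
  have hE2 : e⁻¹ * e = 1 := by rw [he]; exact Matrix.nonsing_inv_mul _ hE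
  have h5 : m.transpose * e * m = e := by rw [hm, he]; exact hM
  have h6 : m.transpose * e = e * m' := by
    calc m.transpose * e = m.transpose * e * (m * m') := by rw [h3, Matrix.mul_one]
      _ = m.transpose * e * m * m' := by simp only [Matrix.mul_assoc]
      _ = e * m' := by rw [h5]
  have h7 : m'.transpose * m.transpose = 1 := by
    rw [← Matrix.transpose_mul, h3, Matrix.transpose_one]
  have h8 : m' * e⁻¹ * m'.transpose = e⁻¹ := by
    have h9 : e = m.transpose * e * m := h5.symm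
    have h10 : m' * e⁻¹ * m'.transpose * e = 1 := by
      calc m' * e⁻¹ * m'.transpose * e = m' * e⁻¹ * m'.transpose * (m.transpose * e * m) := by
            rw [h5]
        _ = m' * e⁻¹ * (m'.transpose * m.transpose) * e * m := by simp only [Matrix.mul_assoc]
        _ = m' * (e⁻¹ * e) * m := by rw [h7, Matrix.mul_one]; simp only [Matrix.mul_assoc]
        _ = 1 := by rw [hE2, Matrix.mul_one, h4]
    calc m' * e⁻¹ * m'.transpose = m' * e⁻¹ * m'.transpose * (e * e⁻¹) := by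
          rw [hE1, Matrix.mul_one]
      _ = m' * e⁻¹ * m'.transpose * e * e⁻¹ := by simp only [Matrix.mul_assoc]
      _ = e⁻¹ := by rw [h10, Matrix.one_mul]
  unfold len
  rw [icst_mul, icst_mul, ← hm, ← hm', ← hc, ← he, Matrix.transpose_mul, Matrix.transpose_mul]
  have h9 : e⁻¹ * (m'.transpose * (c.transpose * m.transpose)) * e * (m * c * m') =
      e⁻¹ * m'.transpose * c.transpose * e * c * m' := by
    calc e⁻¹ * (m'.transpose * (c.transpose * m.transpose)) * e * (m * c * m') =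
          e⁻¹ * m'.transpose * c.transpose * (m.transpose * e) * m * c * m' := by
            simp only [Matrix.mul_assoc]
      _ = e⁻¹ * m'.transpose * c.transpose * e * (m' * m) * c * m' := by
            rw [h6]; simp only [Matrix.mul_assoc]
      _ = _ := by rw [h4, Matrix.mul_one]
  rw [h9, Matrix.trace_mul_comm]
  have h10 : m' * (e⁻¹ * m'.transpose * c.transpose * e * c) =
      (m' * e⁻¹ * m'.transpose) * c.transpose * e * c := by simp only [Matrix.mul_assoc]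
  rw [h10, h8]

end Pool.Agent.U980.GS
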