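import Mathlib
import Pool.Agent.U980.GS.Fam

/-!
# One Tate class decides whether all Tate classes extend
-/

set_option autoImplicit false
set_option linter.unusedSectionVars false

namespace Pool.Agent.U980.GS

open Module Pool.Agent.Y114.RM Pool.Agent.Y114.TF Pool.Agent.R913.Adj Pool.Agent.U980.AD
open Pool.Agent.H204R3.GP Pool.Agent.U980.MF

variable {n : ℕ} {A : RiemannData n} {ℓ : ℕ} [Fact ℓ.Prime]
  {Γ : Type} [Group Γ] [TopologicalSpace Γ] [IsTopologicalGroup Γ] [CompactSpace Γ]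
  {ρx : Representation ℚ_[ℓ] Γ (Fin n → ℚ_[ℓ])} {χx : Γ →* ℚ_[ℓ]}
  {G : Type} [Group G] [TopologicalSpace G] [IsTopologicalGroup G] [CompactSpace G]
  {ρ : Representation ℚ_[ℓ] G (Fin n → ℚ_[ℓ])} {χ : G →* ℚ_[ℓ]} {N D : Subgroup G}

/-- The commutant of the Lie algebra at the point is stable under the elements which commute with
the projection. -/
theorem stable {L : Submodule ℚ_[ℓ] (End ℚ_[ℓ] (Fin n → ℚ_[ℓ]))}
    {P : End ℚ_[ℓ] (Fin n → ℚ_[ℓ]) →ₗ[ℚ_[ℓ]] End ℚ_[ℓ] (Fin n → ℚ_[ℓ])} (hP : IsProj L P)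
    {p : G} (hp : ∀ B, P (AdE (ρ p⁻¹) (ρ p⁻¹⁻¹) B) = AdE (ρ p⁻¹) (ρ p⁻¹⁻¹) (P B))
    {Z : End ℚ_[ℓ] (Fin n → ℚ_[ℓ])} (hZ : ∀ X ∈ L, Z * X = X * Z) :
    ∀ X ∈ L, (ρ p * Z * ρ p⁻¹) * X = X * (ρ p * Z * ρ p⁻¹) := by
  intro X hX
  have h1 : ρ p * ρ p⁻¹ = 1 := by rw [← map_mul, mul_inv_cancel, map_one]
  have h2 : ρ p⁻¹ * ρ p = 1 := by rw [← map_mul, inv_mul_cancel, map_one]
  have h3 : ρ p⁻¹ * X * ρ p ∈ L := by
    have h4 := hp X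
    rw [hP.fix X hX] at h4
    have h5 := hP.mem (AdE (ρ p⁻¹) (ρ p⁻¹⁻¹) X)
    rw [h4, AdE_apply, inv_inv, ← mul_assoc] at h5
    exact h5
  have h4 := hZ _ h3
  calc (ρ p * Z * ρ p⁻¹) * X = ρ p * Z * (ρ p⁻¹ * X) * (ρ p * ρ p⁻¹) := by
        rw [h1, mul_one, mul_assoc (ρ p * Z)]
    _ = ρ p * (Z * (ρ p⁻¹ * X * ρ p)) * ρ p⁻¹ := by simp only [mul_assoc]
    _ = ρ p * (ρ p⁻¹ * X * ρ p * Z) * ρ p⁻¹ := by rw [h4]
    _ = (ρ p * ρ p⁻¹) * X * (ρ p * Z * ρ p⁻¹) := by simp only [mul_assoc]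
    _ = X * (ρ p * Z * ρ p⁻¹) := by rw [h1, one_mul]

/-- An integral endomorphism of the fibre commutes with a subgroup of finite index. -/
theorem cen_finite (hx : IsPoint A ρx χx) (hY : IsFamilyThrough A ρx χx ρ χ N D)
    {L : Submodule ℚ_[ℓ] (End ℚ_[ℓ] (Fin n → ℚ_[ℓ]))}
    {P : End ℚ_[ℓ] (Fin n → ℚ_[ℓ]) →ₗ[ℚ_[ℓ]] End ℚ_[ℓ] (Fin n → ℚ_[ℓ])} (hP : IsProj L P)
    (hc1 : ∀ Z, (∀ X ∈ L, Z * X = X * Z) → Z ∈ eSpan A ℓ)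
    (hc2 : ∀ Z ∈ eSpan A ℓ, ∀ X ∈ L, Z * X = X * Z) (hT : IsTateMap ρ ρ P)
    (a : Matrix (Fin n) (Fin n) ℤ) (ha : icst ℝ a * A.J = A.J * icst ℝ a) :
    (cen ρ (Matrix.toLin' (icst ℚ_[ℓ] a))).FiniteIndex := by
  classical
  obtain ⟨Δ, hΔ, hTΔ⟩ := hT
  obtain ⟨Z, hZ⟩ : ∃ Z, Z = cen ρ (Matrix.toLin' (icst ℚ_[ℓ] a)) := ⟨_, rfl⟩
  rw [← hZ]
  obtain ⟨s, hs1, hs2, hs3⟩ := hY.point
  choose! M hM using hY.integral
  -- the finite orbit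
  have hfin := finite_integral A (len A (icst ℝ a))
  have horb : ∀ p ∈ D, p ∈ Δ → M p * a * M p⁻¹ ∈ {b : Matrix (Fin n) (Fin n) ℤ |
      icst ℝ b * A.J = A.J * icst ℝ b ∧ len A (icst ℝ b) = len A (icst ℝ a)} := by
    intro p hp hpΔ
    have hi := int_inv (hM p hp) (hM p⁻¹ (D.inv_mem hp))
    refine ⟨?_, ?_⟩
    · have h1 : Matrix.toLin' (icst ℚ_[ℓ] a) ∈ eSpan A ℓ := by
        refine Submodule.subset_span ⟨icst ℚ a, ?_, ?_⟩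
        · rw [← icst_eq]
          exact ha
        · rw [← icst_eq]
      have h2 := hc1 _ (stable hP (p := p) (fun B => hTΔ p⁻¹ (Δ.inv_mem hpΔ) B) (hc2 _ h1))
      have h3 : ρ p * Matrix.toLin' (icst ℚ_[ℓ] a) * ρ p⁻¹ =
          Matrix.toLin' (cst ℚ_[ℓ] (icst ℚ (M p * a * M p⁻¹))) := by
        rw [hM p hp, hM p⁻¹ (D.inv_mem hp), ← icst_eq, icst_mul, icst_mul, Matrix.toLin'_mul,
          Matrix.toLin'_mul]
        rfl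
      rw [h3] at h2
      have h4 := rat_descent h2
      rw [← icst_eq] at h4
      exact h4
    · exact len_conj hi.1 hi.2 (sympl hY.tateModule.weil (hY.geometric p (hY.le hp)) (hM p hp)) a
  -- two elements with the same conjugate differ by an element of the centralizer
  have hsame : ∀ p ∈ D, ∀ q ∈ D, M p * a * M p⁻¹ = M q * a * M q⁻¹ → q⁻¹ * p ∈ Z := by
    intro p hp q hq h
    have h3 : ∀ p ∈ D, ρ p * Matrix.toLin' (icst ℚ_[ℓ] a) * ρ p⁻¹ =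
        Matrix.toLin' (icst ℚ_[ℓ] (M p * a * M p⁻¹)) := by
      intro p hp
      rw [hM p hp, hM p⁻¹ (D.inv_mem hp), icst_mul, icst_mul, Matrix.toLin'_mul,
        Matrix.toLin'_mul]
      rfl
    have h4 : ρ p * Matrix.toLin' (icst ℚ_[ℓ] a) * ρ p⁻¹ =
        ρ q * Matrix.toLin' (icst ℚ_[ℓ] a) * ρ q⁻¹ := by rw [h3 p hp, h3 q hq, h]
    obtain ⟨W, hW⟩ : ∃ W, W = Matrix.toLin' (icst ℚ_[ℓ] a) := ⟨_, rfl⟩
    rw [hZ, mem_cen, ← hW]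
    rw [← hW] at h4
    have e1 : ρ p⁻¹ * ρ p = 1 := by rw [← map_mul, inv_mul_cancel, map_one]
    have e2 : ρ q⁻¹ * ρ q = 1 := by rw [← map_mul, inv_mul_cancel, map_one]
    rw [map_mul]
    calc ρ q⁻¹ * ρ p * W = ρ q⁻¹ * (ρ p * W * ρ p⁻¹) * ρ p := by
          simp only [mul_assoc]
          rw [e1, mul_one]
      _ = (ρ q⁻¹ * ρ q) * W * (ρ q⁻¹ * ρ p) := by
          rw [h4]
          simp only [mul_assoc]
      _ = W * (ρ q⁻¹ * ρ p) := by rw [e2, one_mul]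
  -- `D ∩ Δ` is covered by finitely many cosets
  obtain ⟨T1, hT1, hT1D, hT1c⟩ : ∃ T : Set G, T.Finite ∧ (∀ t ∈ T, t ∈ D) ∧
      ∀ p ∈ D, p ∈ Δ → ∃ t ∈ T, t⁻¹ * p ∈ Z := by
    obtain ⟨F, hF⟩ : ∃ F, F = {b : Matrix (Fin n) (Fin n) ℤ |
      icst ℝ b * A.J = A.J * icst ℝ b ∧ len A (icst ℝ b) = len A (icst ℝ a)} := ⟨_, rfl⟩
    rw [← hF] at hfin horb
    have h1 : ∀ b : Matrix (Fin n) (Fin n) ℤ, ∃ t : G, t ∈ D ∧
        ((∃ p ∈ D, p ∈ Δ ∧ M p * a * M p⁻¹ = b) → M t * a * M t⁻¹ = b) := by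
      intro b
      by_cases h : ∃ p ∈ D, p ∈ Δ ∧ M p * a * M p⁻¹ = b
      · obtain ⟨p, hp, hpΔ, hpb⟩ := h
        exact ⟨p, hp, fun _ => hpb⟩
      · exact ⟨1, D.one_mem, fun h' => absurd h' h⟩
    choose t ht1 ht2 using h1
    refine ⟨t '' F, hfin.image t, ?_, fun p hp hpΔ => ?_⟩
    · rintro _ ⟨b, -, rfl⟩
      exact ht1 b
    · refine ⟨t (M p * a * M p⁻¹), ⟨_, horb p hp hpΔ, rfl⟩, hsame p hp _ (ht1 _) ?_⟩
      exact (ht2 (M p * a * M p⁻¹) ⟨p, hp, hpΔ, rfl⟩).symm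
  -- `D` is covered by finitely many cosets
  obtain ⟨T2, hT2, hT2c⟩ : ∃ T : Set G, T.Finite ∧ ∀ p ∈ D, ∃ t ∈ T, t⁻¹ * p ∈ Z := by
    obtain ⟨T0, hT0, hT0c⟩ := exists_cover (Δ.subgroupOf D) inferInstance
    refine ⟨(fun x : D × G => (x.1 : G) * x.2) '' (T0 ×ˢ T1), (hT0.prod hT1).image _,
      fun p hp => ?_⟩
    obtain ⟨t, ht, htp⟩ := hT0c ⟨p, hp⟩
    have h1 : (t : G)⁻¹ * p ∈ Δ := htp
    obtain ⟨t', ht', ht'p⟩ := hT1c ((t : G)⁻¹ * p) (D.mul_mem (D.inv_mem t.2) hp) h1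
    refine ⟨(t : G) * t', ⟨(t, t'), ⟨ht, ht'⟩, rfl⟩, ?_⟩
    rw [mul_inv_rev, mul_assoc]
    exact ht'p
  -- `N` is covered by the same cosets
  have hNc : ∀ h ∈ N, ∃ t ∈ T2, t⁻¹ * h ∈ Z := by
    have hcl : IsClosed (⋃ t ∈ T2, {g : G | t⁻¹ * g ∈ Z}) := by
      refine hT2.isClosed_biUnion fun t _ => ?_
      have h1 : IsClosed (Z : Set G) := by
        rw [hZ]
        exact cen_closed hY.tateModule.cont _
      exact h1.preimage (continuous_const.mul continuous_id)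
    have hsub : (D : Set G) ⊆ ⋃ t ∈ T2, {g : G | t⁻¹ * g ∈ Z} := by
      intro p hp
      obtain ⟨t, ht, htp⟩ := hT2c p hp
      exact Set.mem_biUnion ht htp
    intro h hh
    have h1 : h ∈ closure (D : Set G) := hY.dense hh
    have h2 := (closure_minimal hsub hcl) h1
    obtain ⟨t, ht, htp⟩ := Set.mem_iUnion₂.1 h2
    exact ⟨t, ht, htp⟩
  -- the point
  have hΔx : (Z.comap s).FiniteIndex := by
    obtain ⟨Δ', hΔ', h'⟩ := hx.endos (icst ℚ a) (by rw [← icst_eq]; exact ha)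
    refine Subgroup.finiteIndex_of_le (H := Δ') fun γ hγ => ?_
    rw [Subgroup.mem_comap, hZ, mem_cen, hs1, icst_eq]
    exact h' γ hγ
  obtain ⟨T3, hT3, hT3c⟩ := exists_cover (Z.comap s) hΔx
  refine finiteIndex_of_cover Z (T := (fun x : Γ × G => s x.1 * x.2) '' (T3 ×ˢ T2))
    ((hT3.prod hT2).image _) fun g => ?_
  obtain ⟨h, hh, γ, rfl⟩ := hs3 g
  obtain ⟨t, ht, htγ⟩ := hT3c γ
  have hh' : (s t)⁻¹ * h * s t ∈ N := by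
    have h1 := hY.normal.conj_mem h hh (s t)⁻¹
    rwa [inv_inv] at h1
  obtain ⟨t', ht', ht'h⟩ := hNc _ hh'
  refine ⟨s t * t', ⟨(t, t'), ⟨ht, ht'⟩, rfl⟩, ?_⟩
  have h1 : (s t * t')⁻¹ * (h * s γ) = (t'⁻¹ * ((s t)⁻¹ * h * s t)) * s (t⁻¹ * γ) := by
    rw [map_mul, map_inv]
    group
  rw [h1]
  exact Z.mul_mem ht'h htγ

end Pool.Agent.U980.GS
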