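import Mathlib
import Pool.Agent.U980.GS.Main
import Pool.Agent.U980.HL.Integral

/-!
# One Tate class decides whether the Galois group grows in a family
-/

set_option autoImplicit false
set_option linter.unusedSectionVars false

namespace Pool.Agent.U980.GS

open Module Pool.Agent.Y114.RM Pool.Agent.Y114.TF Pool.Agent.R913.Adj Pool.Agent.U980.AD
open Pool.Agent.H204R3.GP Pool.Agent.U980.MF

variable {n : ℕ} {A : RiemannData n} {ℓ : ℕ} [Fact ℓ.Prime]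
  {Γ : Type} [Group Γ] [TopologicalSpace Γ] [IsTopologicalGroup Γ] [CompactSpace Γ]
  {ρx : Representation ℚ_[ℓ] Γ (Fin n → ℚ_[ℓ])} {χx : Γ →* ℚ_[ℓ]}

section family

variable {G : Type} [Group G] [TopologicalSpace G] [IsTopologicalGroup G] [CompactSpace G]
  {ρ : Representation ℚ_[ℓ] G (Fin n → ℚ_[ℓ])} {χ : G →* ℚ_[ℓ]} {N D : Subgroup G}

theorem comap_finite {G' : Type} [Group G'] {G : Type} [Group G] (s : G' →* G) {Δ : Subgroup G}
    (hΔ : Δ.FiniteIndex) : (Δ.comap s).FiniteIndex := by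
  refine ⟨?_⟩
  rw [Subgroup.index_comap]
  exact fun h => hΔ.index_ne_zero (Subgroup.index_eq_zero_of_relIndex_eq_zero h)

/-- The Lie algebra of the family contains that of the point. -/
theorem gal_le (hY : IsFamilyThrough A ρx χx ρ χ N D) {X : End ℚ_[ℓ] (Fin n → ℚ_[ℓ])}
    (hX : InGal ρx X) : InGal ρ X := by
  obtain ⟨s, hs1, -, -⟩ := hY.point
  intro m φ hφ
  refine hX m φ ?_
  obtain ⟨Δ, hΔ, h⟩ := hφ
  refine ⟨Δ.comap s, comap_finite s hΔ, fun γ hγ v => ?_⟩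
  have h1 := h (s γ) hγ v
  rw [← map_inv, hs1, hs1] at h1
  exact h1

theorem comm_eSpan (hx : IsPoint A ρx χx) (hY : IsFamilyThrough A ρx χx ρ χ N D)
    {L : Submodule ℚ_[ℓ] (End ℚ_[ℓ] (Fin n → ℚ_[ℓ]))}
    {P : End ℚ_[ℓ] (Fin n → ℚ_[ℓ]) →ₗ[ℚ_[ℓ]] End ℚ_[ℓ] (Fin n → ℚ_[ℓ])} (hP : IsProj L P)
    (hc1 : ∀ Z, (∀ X ∈ L, Z * X = X * Z) → Z ∈ eSpan A ℓ)
    (hc2 : ∀ Z ∈ eSpan A ℓ, ∀ X ∈ L, Z * X = X * Z) (hT : IsTateMap ρ ρ P)
    {X : End ℚ_[ℓ] (Fin n → ℚ_[ℓ])} (hX : InGal ρ X) {Z : End ℚ_[ℓ] (Fin n → ℚ_[ℓ])}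
    (hZ : Z ∈ eSpan A ℓ) : Z * X = X * Z := by
  have hZ' := hZ
  unfold eSpan at hZ'
  refine Submodule.span_induction (p := fun Z _ => Z * X = X * Z) ?_ ?_ ?_ ?_ hZ'
  · rintro _ ⟨R, hR, rfl⟩
    obtain ⟨d, hd, z, hz⟩ := Pool.Agent.U980.HL.exists_int (fun x : Fin n × Fin n => R x.1 x.2)
    let a : Matrix (Fin n) (Fin n) ℤ := fun i j => z (i, j)
    have ha : icst ℚ a = (d : ℚ) • R := by
      ext i j
      exact hz (i, j)
    have haJ : icst ℝ a * A.J = A.J * icst ℝ a := by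
      have h1 : icst ℝ a = (d : ℝ) • cst ℝ R := by
        rw [icst_eq, ha]
        ext i j
        change (((d : ℚ) * R i j : ℚ) : ℝ) = (d : ℝ) * (R i j : ℝ)
        rw [Rat.cast_mul, Rat.cast_natCast]
      rw [h1, Matrix.smul_mul, Matrix.mul_smul, hR]
    have h1 := cen_finite hx hY hP hc1 hc2 hT a haJ
    have h2 := tate_comm ρ hX h1 fun s hs => (mem_cen.1 hs).symm
    have h3 : Matrix.toLin' (icst ℚ_[ℓ] a) = (d : ℚ_[ℓ]) • Matrix.toLin' (cst ℚ_[ℓ] R) := by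
      have h4 : icst ℚ_[ℓ] a = (d : ℚ_[ℓ]) • cst ℚ_[ℓ] R := by
        rw [icst_eq, ha]
        ext i j
        change (((d : ℚ) * R i j : ℚ) : ℚ_[ℓ]) = (d : ℚ_[ℓ]) * (R i j : ℚ_[ℓ])
        rw [Rat.cast_mul, Rat.cast_natCast]
      rw [h4, map_smul]
    rw [h3, mul_smul_comm, smul_mul_assoc] at h2
    exact (smul_right_injective _ (Nat.cast_ne_zero.2 hd) h2).symm
  · rw [zero_mul, mul_zero]
  · intro a b _ _ ha hb
    rw [add_mul, mul_add, ha, hb]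
  · intro c a _ ha
    rw [smul_mul_assoc, mul_smul_comm, ha]

/-- If the projection is a Tate class of the family, then the Lie algebras are equal. -/
theorem gal_eq (hx : IsPoint A ρx χx) (hY : IsFamilyThrough A ρx χx ρ χ N D)
    {L : Submodule ℚ_[ℓ] (End ℚ_[ℓ] (Fin n → ℚ_[ℓ]))}
    {P : End ℚ_[ℓ] (Fin n → ℚ_[ℓ]) →ₗ[ℚ_[ℓ]] End ℚ_[ℓ] (Fin n → ℚ_[ℓ])}
    (hL : ∀ X, X ∈ L ↔ InGal ρx X) (hLie : IsLie L) (hnd : NonDeg L) (hP : IsProj L P)
    (hc1 : ∀ Z, (∀ X ∈ L, Z * X = X * Z) → Z ∈ eSpan A ℓ)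
    (hc2 : ∀ Z ∈ eSpan A ℓ, ∀ X ∈ L, Z * X = X * Z) (hT : IsTateMap ρ ρ P)
    {X : End ℚ_[ℓ] (Fin n → ℚ_[ℓ])} (hX : InGal ρ X) : InGal ρx X := by
  obtain ⟨Δ, hΔ, hTΔ⟩ := hT
  have had : ∀ X, InGal ρ X → ∀ B, P (X * B - B * X) = X * P B - P B * X := by
    intro X hX B
    refine tate_map ρ hX hΔ (fun γ hγ A' => ?_) B
    have h1 := hTΔ γ hγ A'
    rw [AdE_apply, AdE_apply] at h1
    exact h1
  have hcom : ∀ X, InGal ρ X → ∀ W ∈ L, (X - P X) * W = W * (X - P X) := by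
    intro X hX W hW
    have hid : ∀ W ∈ L, X * W - W * X ∈ L := by
      intro W hW
      have h1 := had X hX W
      rw [hP.fix W hW] at h1
      rw [← h1]
      exact hP.mem _
    obtain ⟨T, hTd⟩ : ∃ T, T = X - P X := ⟨_, rfl⟩
    rw [← hTd, ← sub_eq_zero]
    refine hnd _ ?_ fun Y hY' => ?_
    · have e : T * W - W * T = (X * W - W * X) - (P X * W - W * P X) := by
        rw [hTd, sub_mul, mul_sub]
        abel
      rw [e]
      exact L.sub_mem (hid W hW) (hLie _ (hP.mem X) _ hW)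
    · have h1 : LinearMap.trace ℚ_[ℓ] (Fin n → ℚ_[ℓ]) ((T * W - W * T) * Y) =
          LinearMap.trace ℚ_[ℓ] (Fin n → ℚ_[ℓ]) (T * (W * Y - Y * W)) := by
        rw [sub_mul, mul_sub, map_sub, map_sub]
        rw [mul_assoc, mul_assoc W T Y, LinearMap.trace_mul_comm ℚ_[ℓ] W (T * Y), mul_assoc]
      rw [h1, hTd, sub_mul, map_sub, hP.tr X _ (hLie _ hW _ hY'), sub_self]
  have hbr : ∀ Z ∈ Submodule.span ℚ_[ℓ]
      {Z | ∃ B C, InGal ρ B ∧ InGal ρ C ∧ Z = B * C - C * B}, P Z = Z := by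
    intro Z hZ
    refine Submodule.span_induction (p := fun Z _ => P Z = Z) ?_ ?_ ?_ ?_ hZ
    · rintro _ ⟨B, C, hB, hC, rfl⟩
      rw [had B hB C]
      have h1 := comm_eSpan hx hY hP hc1 hc2 ⟨Δ, hΔ, hTΔ⟩ hB (hc1 _ (hcom C hC))
      rw [sub_mul, mul_sub] at h1
      have h2 : (B * C - C * B) - (B * P C - P C * B) =
          (B * C - B * P C) - (C * B - P C * B) := by abel
      rw [← sub_eq_zero, ← neg_sub, h2, ← h1, sub_self, neg_zero]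
    · rw [map_zero]
    · intro a b _ _ ha hb
      rw [map_add, ha, hb]
    · intro c a _ ha
      rw [map_smul, ha]
  obtain ⟨Y, hY1, hY2⟩ := hY.deligne X hX
  have h1 := hbr _ hY2
  have h2 : X - Y ∈ L := by
    rw [← h1]
    exact hP.mem _
  have h3 := L.add_mem h2 ((hL Y).2 hY1)
  rw [sub_add_cancel] at h3
  exact (hL X).1 h3

end family

/-- **The theorem.** -/
theorem one_class (hx : IsPoint A ρx χx) : ∃ c : Form ℚ_[ℓ] (Fin n → ℚ_[ℓ]) 2, IsTate ρx χx c ∧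
    ∀ (G : Type) [Group G] [TopologicalSpace G] [IsTopologicalGroup G] [CompactSpace G]
      (ρ : Representation ℚ_[ℓ] G (Fin n → ℚ_[ℓ])) (χ : G →* ℚ_[ℓ]) (N D : Subgroup G),
      IsFamilyThrough A ρx χx ρ χ N D →
      (IsTate ρ χ c ↔ ∀ X, InGal ρ X ↔ InGal ρx X) := by
  obtain ⟨L, P, hL, hLie, hnd, hP, hAd, hc1, hc2⟩ := point_data hx
  obtain ⟨sh, hsh⟩ := exists_sh A ℚ_[ℓ]
  have hω := riem_nondeg A ℚ_[ℓ]
  refine ⟨quart (riem A ℚ_[ℓ]) P, ?_, ?_⟩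
  · refine quart_tate hx.tateModule.weil ⟨⊤, inferInstance, fun γ _ B => ?_⟩
    refine hP.conj hnd (fun X hX => hAd γ X hX) (fun X hX => ?_) B
    have h1 := hAd γ⁻¹ X hX
    rw [AdE_apply, inv_inv] at h1
    exact h1
  · intro G _ _ _ _ ρ χ N D hY
    constructor
    · intro h X
      have hT : IsTateMap ρ ρ P := tateMap_of_quart hsh hω hY.tateModule.weil h
      exact ⟨gal_eq hx hY hL hLie hnd hP hc1 hc2 hT, gal_le hY⟩
    · intro h
      obtain ⟨L', hL', -, hAd', -⟩ := Y41.RM.lieL' ℚ_[ℓ] (Fin n → ℚ_[ℓ]) G ρ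
      have hLL : ∀ X, X ∈ L' ↔ X ∈ L := by
        intro X
        rw [hL, ← h]
        exact ⟨fun hX => ((hL' X).1 hX).2,
          fun hX => (hL' X).2 (mem_LT_of_semisimple ρ hY.semisimple hX)⟩
      refine quart_tate hY.tateModule.weil ⟨⊤, inferInstance, fun γ _ B => ?_⟩
      refine hP.conj hnd (fun X hX => (hLL _).1 (hAd' γ X ((hLL X).2 hX))) (fun X hX => ?_) B
      have h1 := (hLL _).1 (hAd' γ⁻¹ X ((hLL X).2 hX))
      rw [AdE_apply, inv_inv] at h1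
      exact h1

end Pool.Agent.U980.GS
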